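import Mathlib
import Pool.Agent.Helper40.Nil.Stmts

set_option autoImplicit false

/-! MP_7a8f48_an: the finite dimensional dichotomy. -/

namespace Pool.Agent.Helper40.Nil

open Filter Topology
open scoped ComplexConjugate InnerProductSpace

universe u

section

variable {V : Type u} [Group V] {E : Type u} [NormedAddCommGroup E] [InnerProductSpace ℂ E]

/-- the representation by linear automorphisms -/
noncomputable def fdl_lin (π : V →* (E ≃ₗᵢ[ℂ] E)) : V →* (E ≃ₗ[ℂ] E) where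
  toFun y := (π y).toLinearEquiv
  map_one' := by
    ext v
    change (π 1) v = v
    rw [map_one]
    rfl
  map_mul' x y := by
    ext v
    change (π (x * y)) v = (π x) ((π y) v)
    rw [map_mul]
    rfl

theorem fdl_lin_apply (π : V →* (E ≃ₗᵢ[ℂ] E)) (y : V) (v : E) : fdl_lin π y v = π y v := rfl

theorem fdl_mul (π : V →* (E ≃ₗᵢ[ℂ] E)) (x y : V) (v : E) : π (x * y) v = π x (π y v) := by
  rw [map_mul]
  rfl

theorem fdl_inv (π : V →* (E ≃ₗᵢ[ℂ] E)) (x : V) (v : E) : π x (π x⁻¹ v) = v := by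
  rw [← fdl_mul, mul_inv_cancel, map_one]
  rfl

theorem fdl_inv' (π : V →* (E ≃ₗᵢ[ℂ] E)) (x : V) (v : E) : π x⁻¹ (π x v) = v := by
  rw [← fdl_mul, inv_mul_cancel, map_one]
  rfl

/-- the elements acting by scalars -/
def fdl_N (π : V →* (E ≃ₗᵢ[ℂ] E)) : Subgroup V where
  carrier := {y | ∃ c : ℂ, c ≠ 0 ∧ ∀ v, π y v = c • v}
  one_mem' := ⟨1, one_ne_zero, fun v => by rw [map_one, one_smul]; rfl⟩
  mul_mem' := by
    rintro x y ⟨c, hc0, hc⟩ ⟨d, hd0, hd⟩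
    refine ⟨c * d, mul_ne_zero hc0 hd0, fun v => ?_⟩
    rw [fdl_mul, hd, hc, smul_smul]
  inv_mem' := by
    rintro x ⟨c, hc0, hc⟩
    refine ⟨c⁻¹, inv_ne_zero hc0, fun v => ?_⟩
    have h := fdl_inv π x v
    rw [hc] at h
    calc π x⁻¹ v = c⁻¹ • (c • π x⁻¹ v) := by rw [smul_smul, inv_mul_cancel₀ hc0, one_smul]
      _ = c⁻¹ • v := by rw [h]

instance fdl_normal (π : V →* (E ≃ₗᵢ[ℂ] E)) : (fdl_N π).Normal where
  conj_mem := by
    rintro n ⟨c, hc0, hc⟩ g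
    refine ⟨c, hc0, fun v => ?_⟩
    rw [fdl_mul, fdl_mul, hc, map_smul, fdl_inv]

variable {φ : V → ℂ} {π : V →* (E ≃ₗᵢ[ℂ] E)} {ζ : E}

theorem fdl_scal (hco : ∀ x, φ x = ⟪ζ, π x ζ⟫_ℂ) (h1 : φ 1 = 1) {y : V} {c : ℂ}
    (hc : ∀ v, π y v = c • v) : c = φ y := by
  rw [hco y, hc, inner_smul_right]
  have h2 := hco 1
  rw [h1, map_one] at h2
  have h3 : ⟪ζ, ζ⟫_ℂ = 1 := h2.symm
  rw [h3, mul_one]

theorem fdl_act (hco : ∀ x, φ x = ⟪ζ, π x ζ⟫_ℂ) (h1 : φ 1 = 1) {y : V} (hy : y ∈ fdl_N π) (v : E) :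
    π y v = φ y • v := by
  obtain ⟨c, hc0, hc⟩ := hy
  rw [← fdl_scal hco h1 hc]
  exact hc v

theorem fdl_norm (hco : ∀ x, φ x = ⟪ζ, π x ζ⟫_ℂ) (h1 : φ 1 = 1) : ‖ζ‖ = 1 := by
  have h2 := hco 1
  rw [h1, map_one] at h2
  have h3 : ⟪ζ, ζ⟫_ℂ = 1 := h2.symm
  have h4 : ‖ζ‖ ^ 2 = 1 := by
    rw [← inner_self_eq_norm_sq (𝕜 := ℂ) ζ, h3]
    exact RCLike.one_re
  exact (pow_eq_one_iff_of_nonneg (norm_nonneg _) two_ne_zero).1 h4

theorem fdl_phi_norm (hco : ∀ x, φ x = ⟪ζ, π x ζ⟫_ℂ) (h1 : φ 1 = 1) {y : V} (hy : y ∈ fdl_N π) :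
    ‖φ y‖ = 1 := by
  have h2 := congrArg norm (fdl_act hco h1 hy ζ)
  rw [LinearIsometryEquiv.norm_map, norm_smul, fdl_norm hco h1, mul_one] at h2
  exact h2.symm

theorem fdl_phi_mul (hco : ∀ x, φ x = ⟪ζ, π x ζ⟫_ℂ) (h1 : φ 1 = 1) {x y : V} (hx : x ∈ fdl_N π)
    (hy : y ∈ fdl_N π) : φ (x * y) = φ x * φ y := by
  symm
  apply fdl_scal hco h1
  intro v
  rw [fdl_mul, fdl_act hco h1 hy, map_smul, fdl_act hco h1 hx, smul_smul, mul_comm]

/-- the scalar as an element of the circle -/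
noncomputable def fdl_chi (hco : ∀ x, φ x = ⟪ζ, π x ζ⟫_ℂ) (h1 : φ 1 = 1) : fdl_N π →* Circle where
  toFun y := ⟨φ y, mem_sphere_zero_iff_norm.2 (fdl_phi_norm hco h1 y.2)⟩
  map_one' := Subtype.ext h1
  map_mul' x y := Subtype.ext (fdl_phi_mul hco h1 x.2 y.2)

theorem fdl_chi_coe (hco : ∀ x, φ x = ⟪ζ, π x ζ⟫_ℂ) (h1 : φ 1 = 1) (y : fdl_N π) :
    ((fdl_chi hco h1 y : Circle) : ℂ) = φ y := rfl

end

theorem st_FDL (hEXT : ST_EXT.{u}) (hG1 : ST_G1.{u, u}) (hPER : ST_PER.{u}) (hPERT : ST_PERT.{0})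
    (hPOLA : ST_POLA.{u, u}) (hPOLA0 : ST_POLA.{u, 0}) (hPOLB : ST_POLB.{u}) (hWEYL : ST_WEYL)
    (hWG : ST_WG.{u}) : ST_FDL.{u} := by
  intro V _ hnil φ hφ E _ _ _ π ζ hG hfd D _ hD Φ hΦ w hw hw0 hwc
  have hφK : φ ∈ KK V := extremePoints_subset hφ
  have h1 : φ 1 = 1 := hφK.2
  have hco := hG.coef
  have hζ := fdl_norm hco h1
  have hζ0 : ζ ≠ 0 := by
    intro h
    rw [h, norm_zero] at hζ
    exact zero_ne_one hζ
  have : Nontrivial E := ⟨⟨ζ, 0, hζ0⟩⟩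
  -- a power acts by scalars
  obtain ⟨e0, he0, hs0⟩ := hG1 V hnil E (fdl_lin π) (by
    intro T hT
    obtain ⟨c, hc⟩ := hEXT V φ hφ E π ζ hG (LinearMap.toContinuousLinearMap T)
      (fun x v => hT x v)
    exact ⟨c, fun v => hc v⟩)
  have hs : ∀ y : V, y ^ e0 ∈ fdl_N π := by
    intro y
    obtain ⟨c, hc⟩ := hs0 y
    refine ⟨c, ?_, fun v => hc v⟩
    rintro rfl
    have h2 := hc ζ
    rw [zero_smul, fdl_lin_apply] at h2
    have h3 := congrArg norm h2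
    rw [LinearIsometryEquiv.norm_map, hζ, norm_zero] at h3
    exact one_ne_zero h3
  -- periodicity modulo the scalars
  obtain ⟨M, hM, hMp⟩ := hPER D (V ⧸ fdl_N π) (fun x => QuotientGroup.mk' (fdl_N π) (w x))
    (hPOLA.1 D V (V ⧸ fdl_N π) (QuotientGroup.mk' (fdl_N π)) w hw) e0 he0 (by
      intro q
      obtain ⟨y, rfl⟩ := QuotientGroup.mk_surjective q
      rw [← QuotientGroup.mk_pow]
      exact (QuotientGroup.eq_one_iff _).2 (hs y))
  have hMN : ∀ h x : D, w (x + M • h) * (w x)⁻¹ ∈ fdl_N π := by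
    intro h x
    have h2 := hMp x h
    have h3 : (w x)⁻¹ * w (x + M • h) ∈ fdl_N π := QuotientGroup.eq.1 h2.symm
    exact (fdl_normal π).mem_comm h3
  obtain ⟨χ, hχ⟩ : ∃ χ : fdl_N π →* Circle, ∀ y : fdl_N π, ((χ y : Circle) : ℂ) = φ y :=
    ⟨fdl_chi hco h1, fdl_chi_coe hco h1⟩
  let ψ : D → D → Circle := fun h x => χ ⟨w (x + M • h) * (w x)⁻¹, hMN h x⟩
  have hψ : ∀ h x, ((ψ h x : Circle) : ℂ) = φ (w (x + M • h) * (w x)⁻¹) := fun h x => hχ _
  have hψp : ∀ h, IsPoly (ψ h) := by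
    intro h
    have h2 := (hPOLB D V w hw).2.2 (M • h)
    have h3 : IsPoly (fun x => (⟨w (x + M • h) * (w x)⁻¹, hMN h x⟩ : fdl_N π)) :=
      hPOLA.2.1 D V (fdl_N π) (fdl_N π).subtype _ (Subgroup.subtype_injective _) h2
    exact hPOLA0.1 D (fdl_N π) Circle χ _ h3
  have hψm : ∀ h h' x, ψ (h + h') x = ψ h (x + M • h') * ψ h' x := by
    intro h h' x
    change χ _ = χ _ * χ _
    rw [← map_mul]
    congr 1
    apply Subtype.ext
    change w (x + M • (h + h')) * (w x)⁻¹ =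
      (w (x + M • h' + M • h) * (w (x + M • h'))⁻¹) * (w (x + M • h') * (w x)⁻¹)
    rw [smul_add, ← add_assoc, add_right_comm]
    group
  have hamp : ∀ x h, π (w (x + M • h)) ζ = ((ψ h x : Circle) : ℂ) • π (w x) ζ := by
    intro x h
    rw [hψ, ← fdl_act hco h1 (hMN h x), ← fdl_mul, inv_mul_cancel_right]
  rcases hWG D hD Φ hΦ E (fun x => π (w x) ζ) (fun x => by
    rw [LinearIsometryEquiv.norm_map, hζ]) M hM ψ hamp hψm hψp
    (fun h => hWEYL D hD Φ hΦ (ψ h) (hψp h)) with hlim | ⟨m, hm, hm1⟩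
  · left
    have h2 : Tendsto (fun N => ⟪ζ, avg (Φ N) (fun x => π (w x) ζ)⟫_ℂ) atTop (𝓝 ⟪ζ, (0 : E)⟫_ℂ) :=
      (tendsto_const_nhds (x := ζ)).inner hlim
    rw [inner_zero_right] at h2
    refine h2.congr fun N => ?_
    unfold avg
    rw [inner_smul_right, inner_sum, smul_eq_mul]
    congr 1
    exact Finset.sum_congr rfl fun x _ => (hco _).symm
  right
  have hper : ∀ x h, fdl_lin π (w (x + (M * m) • h)) = fdl_lin π (w x) := by
    intro x h
    have h2 := hψ (m • h) x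
    rw [hm1] at h2
    have h3 : φ (w (x + M • (m • h)) * (w x)⁻¹) = 1 := by
      rw [← h2]
      rfl
    ext v
    rw [fdl_lin_apply, fdl_lin_apply]
    have h4 := fdl_act hco h1 (hMN (m • h) x) (π (w x) v)
    rw [h3, one_smul, ← fdl_mul, inv_mul_cancel_right] at h4
    rw [mul_smul]
    exact h4
  obtain ⟨e1, he1, hdet⟩ := hPERT D ℂˣ (fun x => LinearEquiv.det (fdl_lin π (w x)))
    (hPOLA0.1 D V ℂˣ ((LinearEquiv.det).comp (fdl_lin π)) w hw) (M * m)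
    (Nat.mul_pos hM hm) (fun x h => by rw [hper])
  have hdet' : ∀ y : V, (LinearEquiv.det (fdl_lin π y)) ^ e1 = 1 := by
    have h2 : Subgroup.closure (Set.range w) ≤
        ((powMonoidHom e1).comp ((LinearEquiv.det).comp (fdl_lin π))).ker := by
      rw [Subgroup.closure_le]
      rintro _ ⟨x, rfl⟩
      have h3 := hdet x
      rw [hw0, map_one, map_one, inv_one, mul_one] at h3
      exact h3
    intro y
    rw [hwc] at h2
    exact h2 (Subgroup.mem_top y)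
  have hd : 1 ≤ Module.finrank ℂ E := Module.finrank_pos
  refine ⟨e0 * (Module.finrank ℂ E * e1), Nat.mul_pos he0 (Nat.mul_pos hd he1), ?_⟩
  have hone : ∀ y : V, ∀ v, π (y ^ (e0 * (Module.finrank ℂ E * e1))) v = v := by
    intro y v
    have h2 : (φ (y ^ e0)) ^ (Module.finrank ℂ E * e1) = 1 := by
      have h3 : (fdl_lin π (y ^ e0) : E →ₗ[ℂ] E) = φ (y ^ e0) • LinearMap.id := by
        ext v
        exact fdl_act hco h1 (hs y) v
      have h4 : ((LinearEquiv.det (fdl_lin π (y ^ e0)) : ℂˣ) : ℂ) =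
          φ (y ^ e0) ^ Module.finrank ℂ E := by
        rw [LinearEquiv.coe_det, h3, LinearMap.det_smul, LinearMap.det_id, mul_one]
      have h5 := congrArg (Units.val) (hdet' (y ^ e0))
      rw [Units.val_pow_eq_pow_val, h4, ← pow_mul] at h5
      exact h5
    have h6 : ∀ n : ℕ, ∀ v, π ((y ^ e0) ^ n) v = φ (y ^ e0) ^ n • v := by
      intro n
      induction n with
      | zero =>
        intro v
        rw [pow_zero, pow_zero, one_smul, map_one]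
        rfl
      | succ n ih =>
        intro v
        rw [pow_succ, fdl_mul, ih, fdl_act hco h1 (hs y), smul_smul, pow_succ]
    rw [pow_mul, h6, h2, one_smul]
  intro y hy
  have h2 : pw V (e0 * (Module.finrank ℂ E * e1)) ≤ π.ker := by
    unfold pw
    rw [Subgroup.closure_le]
    rintro _ ⟨z, rfl⟩
    change π _ = 1
    ext v
    exact hone z v
  have h3 : π y = 1 := h2 hy
  rw [hco, h3, ← map_one π, ← hco, h1]

end Pool.Agent.Helper40.Nil
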