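import Mathlib
import Pool.Agent.Helper40.Nil.Stmts

set_option autoImplicit false

/-! MP_7a8f48_an: Weyl's theorem for circle valued polynomial maps. -/

namespace Pool.Agent.Helper40.Nil

open Filter Topology

theorem weyl_mono {D : Type} [AddCommGroup D] {V : Type} [Group V] {F : ℕ → Subgroup V}
    (hF : Antitone F) (l : ℕ) : ∀ (k : ℕ) (u : D → V), PolyN F l (k + 1) u → PolyN F l k u := by
  induction l with
  | zero =>
    intro k u h x
    exact hF (Nat.le_succ k) (h x)
  | succ l ih =>
    intro k u h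
    exact ⟨fun x => hF (Nat.le_succ k) (h.1 x), fun g => ih (k + 1) _ (h.2 g)⟩

theorem weyl_zero {D : Type} [AddCommGroup D] {V : Type} [Group V] {F : ℕ → Subgroup V}
    (hF : Antitone F) (k : ℕ) : ∀ u : D → V, Poly F k u → Poly F 0 u := by
  induction k with
  | zero => exact fun u h => h
  | succ k ih => exact fun u h => ih u fun l => weyl_mono hF l k u (h l)

theorem weyl_dd {D : Type} [AddCommGroup D] {V : Type} [Group V] {F : ℕ → Subgroup V} {k : ℕ}
    {u : D → V} (h : Poly F k u) (g : D) : Poly F (k + 1) (dd g u) := fun l => (h (l + 1)).2 g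

theorem st_WEYL (hWG : ST_WG.{0}) : ST_WEYL := by
  intro D _ hD Φ hΦ u hu
  obtain ⟨F, hF⟩ := hu
  obtain ⟨s, hs⟩ := F.len
  have key : ∀ j k : ℕ, k + j = s → ∀ u : D → Circle, Poly F.F k u →
      Tendsto (fun N => avg (Φ N) (fun x => ((u x : Circle) : ℂ))) atTop (𝓝 0) ∨
        ∃ m : ℕ, 1 ≤ m ∧ ∀ x h, u (x + m • h) = u x := by
    intro j
    induction j with
    | zero =>
      intro k hk u hu
      right
      refine ⟨1, le_rfl, fun x h => ?_⟩
      have h1 : ∀ x, u x = 1 := by
        intro x
        have h2 : u x ∈ F.F k := hu 0 x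
        rw [← hk, add_zero] at hs
        rw [hs, Subgroup.mem_bot] at h2
        exact h2
      rw [h1, h1]
    | succ j ih =>
      intro k hk u hu
      have hdic := fun h : D => ih (k + 1) (by omega) (dd h u) (weyl_dd hu h)
      rcases hWG D hD Φ hΦ ℂ (fun x => ((u x : Circle) : ℂ)) (fun x => Circle.norm_coe _) 1 le_rfl
        (fun h x => dd h u x) (by
          intro x h
          change ((u (x + 1 • h) : Circle) : ℂ) = ((u (x + h) * (u x)⁻¹ : Circle) : ℂ) • (u x : ℂ)
          rw [one_smul, smul_eq_mul, ← Circle.coe_mul, inv_mul_cancel_right]) (by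
          intro h h' x
          change u (x + (h + h')) * (u x)⁻¹ =
            (u (x + 1 • h' + h) * (u (x + 1 • h'))⁻¹) * (u (x + h') * (u x)⁻¹)
          rw [one_smul, add_comm h h', ← add_assoc]
          group) (fun h => ⟨F, weyl_zero F.anti (k + 1) _ (weyl_dd hu h)⟩) hdic with h1 | ⟨m, hm, h1⟩
      · exact Or.inl h1
      · refine Or.inr ⟨m, hm, fun x h => ?_⟩
        have h2 : u (x + m • h) * (u x)⁻¹ = 1 := h1 h x
        exact mul_inv_eq_one.1 h2
  exact key s 0 (by omega) u hF

end Pool.Agent.Helper40.Nil
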